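import Mathlib

/-!
Core inequality argument: a three-good truthful two-agent allocation rule cannot satisfy
the three listed conditions.
-/

namespace Pool.Agent.V11109.Cake

/-- dot product of triples -/
def dot (p v : ℝ × ℝ × ℝ) : ℝ := p.1 * v.1 + p.2.1 * v.2.1 + p.2.2 * v.2.2

/-- admissible types -/
def Dom (p : ℝ × ℝ × ℝ) : Prop := 0 ≤ p.1 ∧ 0 < p.2.1 ∧ 0 ≤ p.2.2

section
variable (x : ℝ × ℝ × ℝ → ℝ × ℝ × ℝ → ℝ × ℝ × ℝ)
variable (mJ mB mS : ℝ)

/-- utility of agent 1 -/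
def U (p q : ℝ × ℝ × ℝ) : ℝ := dot p (x p q)

structure Hyp : Prop where
  T1 : ∀ p p' q, Dom p → Dom p' → Dom q → dot p (x p' q) ≤ dot p (x p q)
  T2 : ∀ p q q', Dom p → Dom q → Dom q' → dot q (x p q) ≤ dot q (x p q')
  lJ : ∀ p q, Dom p → Dom q → 0 ≤ (x p q).1
  uJ : ∀ p q, Dom p → Dom q → (x p q).1 ≤ mJ
  lB : ∀ p q, Dom p → Dom q → 0 ≤ (x p q).2.1
  uB : ∀ p q, Dom p → Dom q → (x p q).2.1 ≤ mB
  lS : ∀ p q, Dom p → Dom q → 0 ≤ (x p q).2.2
  uS : ∀ p q, Dom p → Dom q → (x p q).2.2 ≤ mS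

variable {x mJ mB mS}

/-- one small step of the monotonicity of `U(.,q) - U(.,q')` in direction `q`. -/
lemma step (H : Hyp x mJ mB mS) {w q q' : ℝ × ℝ × ℝ} {d : ℝ} (hd : 0 ≤ d)
    (hw : Dom w) (hq : Dom q) (hq' : Dom q') :
    (U x (w + d • q) q - U x (w + d • q) q') - (U x w q - U x w q') ≤
      d * (dot q (x (w + d • q) q') - dot q (x w q')) := by
  have hwd : Dom (w + d • q) := by
    obtain ⟨h1, h2, h3⟩ := hw
    obtain ⟨k1, k2, k3⟩ := hq
    refine ⟨?_, ?_, ?_⟩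
    · show 0 ≤ w.1 + d * q.1
      positivity
    · show 0 < w.2.1 + d * q.2.1
      positivity
    · show 0 ≤ w.2.2 + d * q.2.2
      positivity
  have a1 := H.T1 w (w + d • q) q hw hwd hq
  have a2 := H.T2 (w + d • q) q q' hwd hq hq'
  have a3 := H.T1 (w + d • q) w q' hwd hw hq'
  have e : ∀ v, dot (w + d • q) v = dot w v + d * dot q v := by
    intro v
    simp only [dot, Prod.fst_add, Prod.snd_add, Prod.smul_fst, Prod.smul_snd, smul_eq_mul]
    ring
  simp only [U]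
  rw [e, e]
  rw [e, e] at a3
  nlinarith

lemma star (H : Hyp x mJ mB mS) {w q q' : ℝ × ℝ × ℝ} {s : ℝ} (hs : 0 ≤ s)
    (hw : Dom w) (hq : Dom q) (hq' : Dom q') :
    U x (w + s • q) q - U x (w + s • q) q' ≤ U x w q - U x w q' := by
  -- Riemann sums
  have key : ∀ M : ℕ, 0 < M →
      (U x (w + s • q) q - U x (w + s • q) q') - (U x w q - U x w q') ≤
        (s / M) * (dot q (x (w + s • q) q') - dot q (x w q')) := by
    intro M hM
    have hM' : (0:ℝ) < M := by exact_mod_cast hM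
    have ind : ∀ k : ℕ,
        (U x (w + (k * (s / M)) • q) q - U x (w + (k * (s / M)) • q) q') - (U x w q - U x w q') ≤
        (s / M) * (dot q (x (w + (k * (s / M)) • q) q') - dot q (x w q')) := by
      intro k
      induction k with
      | zero => simp
      | succ k ih =>
        have hdom : Dom (w + (k * (s / M)) • q) := by
          obtain ⟨h1, h2, h3⟩ := hw
          obtain ⟨k1, k2, k3⟩ := hq
          refine ⟨?_, ?_, ?_⟩
          · show 0 ≤ w.1 + (k * (s / M)) * q.1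
            positivity
          · show 0 < w.2.1 + (k * (s / M)) * q.2.1
            positivity
          · show 0 ≤ w.2.2 + (k * (s / M)) * q.2.2
            positivity
        have st := step H (w := w + (k * (s / M)) • q) (q := q) (q' := q') (d := s / M)
          (by positivity) hdom hq hq'
        have ee : w + (k * (s / M)) • q + (s / M) • q = w + (((k + 1 : ℕ) : ℝ) * (s / M)) • q := by
          rw [add_assoc, ← add_smul]
          congr 2
          push_cast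
          ring
        rw [ee] at st
        linarith
    have := ind M
    have e2 : (M : ℝ) * (s / M) = s := by field_simp
    rw [e2] at this
    exact this
  by_contra hcon
  push Not at hcon
  set δ := (U x (w + s • q) q - U x (w + s • q) q') - (U x w q - U x w q') with hδ
  have hδpos : 0 < δ := by rw [hδ]; linarith
  set C := dot q (x (w + s • q) q') - dot q (x w q') with hC
  obtain ⟨M, hM⟩ := exists_nat_gt (s * |C| / δ)
  have hMpos : 0 < M := by
    rcases Nat.eq_zero_or_pos M with h | h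
    · subst h
      have : 0 ≤ s * |C| / δ := by positivity
      simp at hM
      linarith
    · exact h
  have h1 := key M hMpos
  have hM' : (0:ℝ) < M := by exact_mod_cast hMpos
  have h2 : s / M * C ≤ s / M * |C| := by
    apply mul_le_mul_of_nonneg_left (le_abs_self C) (by positivity)
  have h3 : s / M * |C| < δ := by
    rw [div_mul_eq_mul_div, div_lt_iff₀ hM']
    rw [div_lt_iff₀ hδpos] at hM
    linarith
  linarith

theorem core (H : Hyp x mJ mB mS) {a0 ε : ℝ} (ha0 : 0 ≤ a0) (hε : 0 < ε) (hε8 : ε ≤ 1 / 8)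
    (h1B : (x (1, 1 + a0, 1 + a0) (0, 1, 1)).2.1 = 0)
    (h1S : (x (1, 1 + a0, 1 + a0) (0, 1, 1)).2.2 = 0)
    (h2B : (x (1, 1 + a0 + ε, 1 + a0 + ε) (0, 1, 1)).2.1 = mB)
    (h2S : (x (1, 1 + a0 + ε, 1 + a0 + ε) (0, 1, 1)).2.2 = 0)
    (h3 : (x (0, 1, 0) (0, 1, 0)).2.1 < mB) : False := by
  -- types
  have dq : ∀ t : ℝ, 0 ≤ t → Dom (0, 1, t) := fun t ht => ⟨le_refl _, one_pos, ht⟩
  have dp : ∀ β γ : ℝ, 0 < β → 0 ≤ γ → Dom (1, β, γ) := fun β γ hβ hγ => ⟨zero_le_one, hβ, hγ⟩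
  have d0 : Dom (1, 1 + a0, 1 + a0) := dp _ _ (by linarith) (by linarith)
  have d1 : Dom (1, 1 + a0 + ε, 1 + a0 + ε) := dp _ _ (by linarith) (by linarith)
  have dq1 : Dom ((0, 1, 1) : ℝ × ℝ × ℝ) := dq 1 zero_le_one
  -- Lemma N
  have lemN : ∀ β γ : ℝ, 0 < β → β < 1 + a0 → 0 ≤ γ → γ < 1 + a0 →
      (x (1, β, γ) (0, 1, 1)).2.1 = 0 ∧ (x (1, β, γ) (0, 1, 1)).2.2 = 0 := by
    intro β γ hβ hβ' hγ hγ'
    have dw := dp β γ hβ hγ
    have t1 := H.T1 (1, β, γ) (1, 1 + a0, 1 + a0) (0, 1, 1) dw d0 dq1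
    have t2 := H.T1 (1, 1 + a0, 1 + a0) (1, β, γ) (0, 1, 1) d0 dw dq1
    have l1 := H.lB (1, β, γ) (0, 1, 1) dw dq1
    have l2 := H.lS (1, β, γ) (0, 1, 1) dw dq1
    simp only [dot, h1B, h1S] at t1 t2
    constructor
    · by_contra hne
      have hpos : 0 < (x (1, β, γ) (0, 1, 1)).2.1 := lt_of_le_of_ne l1 (Ne.symm hne)
      nlinarith [mul_pos (sub_pos.2 hβ') hpos, mul_nonneg (sub_pos.2 hγ').le l2]
    · by_contra hne
      have hpos : 0 < (x (1, β, γ) (0, 1, 1)).2.2 := lt_of_le_of_ne l2 (Ne.symm hne)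
      nlinarith [mul_pos (sub_pos.2 hγ') hpos, mul_nonneg (sub_pos.2 hβ').le l1]
  have lemB : ∀ β γ t : ℝ, 0 < β → β < 1 + a0 → 0 ≤ γ → γ < 1 + a0 → 0 ≤ t →
      (x (1, β, γ) (0, 1, t)).2.1 = 0 := by
    intro β γ t hβ hβ' hγ hγ' ht
    obtain ⟨z1, z2⟩ := lemN β γ hβ hβ' hγ hγ'
    have dw := dp β γ hβ hγ
    have t1 := H.T2 (1, β, γ) (0, 1, t) (0, 1, 1) dw (dq t ht) dq1
    have l1 := H.lB (1, β, γ) (0, 1, t) dw (dq t ht)
    have l2 := H.lS (1, β, γ) (0, 1, t) dw (dq t ht)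
    simp only [dot, z1, z2] at t1
    have : 0 ≤ t * (x (1, β, γ) (0, 1, t)).2.2 := mul_nonneg ht l2
    nlinarith
  -- main chain
  set r : ℝ := ε / 2 with hr
  set s : ℝ := 3 * ε with hs
  set P : ℝ × ℝ × ℝ := (1, 1 + a0 + 2 * ε, 1 - ε) with hP
  set hh : ℝ × ℝ × ℝ := (1, 1 + a0 + 2 * ε + r, 1 - ε) with hhh
  have dP : Dom P := dp _ _ (by linarith) (by linarith)
  have dh : Dom hh := dp _ _ (by linarith) (by linarith)
  have chain : ∀ N : ℕ, 0 < N → ∀ i : ℕ, i < N →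
      let ti : ℝ := 1 - i / N
      let tj : ℝ := 1 - (i + 1 : ℕ) / N
      let h' : ℝ × ℝ × ℝ := (1, 1 + a0 + 2 * ε + r, 1 - ε + s / N)
      U x h' (0, 1, ti) - U x h' (0, 1, tj) ≤ U x P (0, 1, ti) - U x P (0, 1, tj) := by
    intro N hN i hi ti tj h'
    have hN' : (0:ℝ) < N := by exact_mod_cast hN
    have hi' : ((i + 1 : ℕ) : ℝ) ≤ N := by exact_mod_cast hi
    have hjN : ((i + 1 : ℕ) : ℝ) / N ≤ 1 := by rw [div_le_one hN']; exact hi'
    have hiN : (i : ℝ) / N ≤ ((i + 1 : ℕ) : ℝ) / N := by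
      apply div_le_div_of_nonneg_right _ hN'.le
      push_cast; linarith
    have hi0 : 0 ≤ (i : ℝ) / N := by positivity
    have hti0 : 0 ≤ ti := by simp only [ti]; linarith
    have htj0 : 0 ≤ tj := by simp only [tj]; linarith
    have htj1 : tj ≤ 1 := by simp only [tj]; linarith
    have hdiff : ti - tj = 1 / N := by
      simp only [ti, tj]; push_cast; ring
    set β0 : ℝ := 1 + a0 - ε with hβ0
    set γ0 : ℝ := 1 - ε - s * tj with hγ0
    have hβpos : 0 < β0 := by rw [hβ0]; linarith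
    have hβlt : β0 < 1 + a0 := by rw [hβ0]; linarith
    have hβr : β0 + r < 1 + a0 := by rw [hβ0, hr]; linarith
    have hst : s * tj ≤ s := by nlinarith
    have hst0 : 0 ≤ s * tj := by positivity
    have hγpos : 0 ≤ γ0 := by rw [hγ0]; linarith
    have hγlt : γ0 < 1 + a0 := by rw [hγ0]; linarith
    have dw : Dom (1, β0, γ0) := dp _ _ hβpos hγpos
    have dwr : Dom (1, β0 + r, γ0) := dp _ _ (by linarith) hγpos
    have dqi := dq ti hti0
    have dqj := dq tj htj0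
    -- first star
    have s1 := star H (w := (1, β0 + r, γ0)) (q := (0, 1, ti)) (q' := (0, 1, tj)) (s := s)
      (by linarith) dwr dqi dqj
    have e1 : ((1, β0 + r, γ0) : ℝ × ℝ × ℝ) + s • ((0, 1, ti) : ℝ × ℝ × ℝ) = h' := by
      simp only [h', Prod.smul_mk, Prod.mk_add_mk, smul_eq_mul]
      refine Prod.ext ?_ (Prod.ext ?_ ?_)
      · simp
      · simp only [hβ0, hs]; ring
      · simp only [hγ0]
        have : ti = tj + 1 / N := by linarith
        rw [this]; ring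
    rw [e1] at s1
    have s2 := star H (w := (1, β0, γ0)) (q := (0, 1, tj)) (q' := (0, 1, ti)) (s := s)
      (by linarith) dw dqj dqi
    have e2 : ((1, β0, γ0) : ℝ × ℝ × ℝ) + s • ((0, 1, tj) : ℝ × ℝ × ℝ) = P := by
      simp only [hP, Prod.smul_mk, Prod.mk_add_mk, smul_eq_mul]
      refine Prod.ext ?_ (Prod.ext ?_ ?_)
      · simp
      · simp only [hβ0, hs]; ring
      · simp only [hγ0]; ring
    rw [e2] at s2
    -- middle
    have m1 : U x (1, β0 + r, γ0) (0, 1, ti) ≤ U x (1, β0, γ0) (0, 1, ti) := by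
      have z := lemB (β0 + r) γ0 ti (by linarith) hβr hγpos hγlt hti0
      have t := H.T1 (1, β0, γ0) (1, β0 + r, γ0) (0, 1, ti) dw dwr dqi
      simp only [U, dot] at t ⊢
      rw [z] at t ⊢
      linarith
    have m2 : U x (1, β0, γ0) (0, 1, tj) ≤ U x (1, β0 + r, γ0) (0, 1, tj) := by
      have t := H.T1 (1, β0 + r, γ0) (1, β0, γ0) (0, 1, tj) dwr dw dqj
      have l := H.lB (1, β0, γ0) (0, 1, tj) dw dqj
      simp only [U, dot] at t ⊢
      nlinarith
    linarith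
  -- telescoping
  have tele : ∀ N : ℕ, 0 < N →
      let h' : ℝ × ℝ × ℝ := (1, 1 + a0 + 2 * ε + r, 1 - ε + s / N)
      U x h' (0, 1, 1) - U x h' (0, 1, 0) ≤ U x P (0, 1, 1) - U x P (0, 1, 0) := by
    intro N hN h'
    have hN' : (0:ℝ) < N := by exact_mod_cast hN
    have ind : ∀ k : ℕ, k ≤ N →
        U x h' (0, 1, 1) - U x h' (0, 1, 1 - (k : ℝ) / N) ≤
          U x P (0, 1, 1) - U x P (0, 1, 1 - (k : ℝ) / N) := by
      intro k
      induction k with
      | zero => intro _; simp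
      | succ k ih =>
        intro hk
        have c := chain N hN k (by omega)
        have i' := ih (by omega)
        simp only at c
        linarith
    have := ind N le_rfl
    have e : (1 : ℝ) - (N : ℝ) / N = 0 := by field_simp; ring
    rw [e] at this
    exact this
  -- values facing q1
  have UP : ∀ β γ : ℝ, 1 + a0 + ε ≤ β → 0 ≤ γ → γ ≤ 1 + a0 + ε →
      U x (1, β, γ) (0, 1, 1) =
        (x (1, 1 + a0 + ε, 1 + a0 + ε) (0, 1, 1)).1 + β * mB := by
    intro β γ hβ hγ hγ'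
    have dw := dp β γ (by linarith) hγ
    have t1 := H.T1 (1, β, γ) (1, 1 + a0 + ε, 1 + a0 + ε) (0, 1, 1) dw d1 dq1
    have t2 := H.T1 (1, 1 + a0 + ε, 1 + a0 + ε) (1, β, γ) (0, 1, 1) d1 dw dq1
    have l2 := H.lS (1, β, γ) (0, 1, 1) dw dq1
    have u1 := H.uB (1, β, γ) (0, 1, 1) dw dq1
    simp only [dot, h2B, h2S, U] at t1 t2 ⊢
    apply le_antisymm
    · nlinarith [mul_nonneg (sub_nonneg.2 hβ) (sub_nonneg.2 u1), mul_nonneg (sub_nonneg.2 hγ') l2]
    · linarith
  have V1 := UP (1 + a0 + 2 * ε) (1 - ε) (by linarith) (by linarith) (by linarith)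
  set bb := (x (0, 1, 0) (0, 1, 0)).2.1 with hbb
  have dqB : Dom ((0, 1, 0) : ℝ × ℝ × ℝ) := dq 0 le_rfl
  -- final inequality for each N
  have fin : ∀ N : ℕ, 2 ≤ N → r * mB ≤ r * bb + s / N * mS := by
    intro N hN
    have hN2 : (2:ℝ) ≤ N := by exact_mod_cast hN
    have hN' : (0:ℝ) < N := by linarith
    have T := tele N (by omega)
    simp only at T
    have hsN : 0 ≤ s / N := by positivity
    have hbig : 1 - ε + s / N ≤ 1 + a0 + ε := by
      have : s / N ≤ s / 2 := div_le_div_of_nonneg_left (by linarith) (by norm_num) hN2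
      rw [hs] at this ⊢
      linarith
    have V2 := UP (1 + a0 + 2 * ε + r) (1 - ε + s / N) (by linarith [hr]) (by linarith) hbig
    have dh' : Dom (1, 1 + a0 + 2 * ε + r, 1 - ε + s / N) :=
      dp _ _ (by linarith [hr]) (by linarith)
    have t := H.T1 P (1, 1 + a0 + 2 * ε + r, 1 - ε + s / N) (0, 1, 0) dP dh' dqB
    have t3 := H.T1 (0, 1, 0) (1, 1 + a0 + 2 * ε + r, 1 - ε + s / N) (0, 1, 0) dqB dh' dqB
    have us := H.uS (1, 1 + a0 + 2 * ε + r, 1 - ε + s / N) (0, 1, 0) dh' dqB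
    rw [V1, V2] at T
    simp only [U, dot, hP] at T t t3
    have t3' : (x (1, 1 + a0 + 2 * ε + r, 1 - ε + s / N) (0, 1, 0)).2.1 ≤ bb := by
      rw [hbb]; linarith
    have hr0 : 0 < r := by rw [hr]; positivity
    nlinarith [mul_le_mul_of_nonneg_left t3' hr0.le, mul_le_mul_of_nonneg_left us hsN]
  have hr0 : 0 < r := by rw [hr]; positivity
  have hgap : 0 < r * (mB - bb) := mul_pos hr0 (by linarith)
  obtain ⟨N0, hN0⟩ := exists_nat_gt (s * |mS| / (r * (mB - bb)))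
  have hN2 : 2 ≤ max N0 2 := le_max_right _ _
  have hf := fin (max N0 2) hN2
  have hNpos : (0:ℝ) < ((max N0 2 : ℕ) : ℝ) := by
    have : (2:ℝ) ≤ ((max N0 2 : ℕ) : ℝ) := by exact_mod_cast hN2
    linarith
  have hN0' : s * |mS| / (r * (mB - bb)) < ((max N0 2 : ℕ) : ℝ) := by
    refine lt_of_lt_of_le hN0 ?_
    exact_mod_cast le_max_left _ _
  rw [div_lt_iff₀ hgap] at hN0'
  have h5 : s / ((max N0 2 : ℕ) : ℝ) * mS ≤ s / ((max N0 2 : ℕ) : ℝ) * |mS| := by
    apply mul_le_mul_of_nonneg_left (le_abs_self _)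
    apply div_nonneg (by linarith) hNpos.le
  have h6 : s / ((max N0 2 : ℕ) : ℝ) * |mS| < r * (mB - bb) := by
    rw [div_mul_eq_mul_div, div_lt_iff₀ hNpos]
    linarith
  linarith
end
end Pool.Agent.V11109.Cake
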