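import Mathlib

/-!
# Cake cutting on `[0,1]`: definitions

The cake is the unit interval.  Densities are piecewise constant, allocations consist of finite
unions of intervals and the whole cake is allocated.
-/

open MeasureTheory

namespace Pool.Agent.V11109.Cake

/-- `S` is a finite union of intervals (an interval is an order-convex subset of `[0,1]`;
it may be open, closed, half-open, a single point or empty). -/
def FinUnionIntervals (S : Set unitInterval) : Prop :=
  ∃ (m : ℕ) (I : Fin m → Set unitInterval), (∀ k, (I k).OrdConnected) ∧ S = ⋃ k, I k

/-- `f` is piecewise constant: it is constant on each of finitely many intervals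
partitioning `[0,1]`. -/
def PiecewiseConst (f : unitInterval → ℝ) : Prop :=
  ∃ (m : ℕ) (I : Fin m → Set unitInterval), (∀ k, (I k).OrdConnected) ∧
    (∀ j k, j ≠ k → Disjoint (I j) (I k)) ∧ (⋃ k, I k) = Set.univ ∧
    ∀ k, ∀ x ∈ I k, ∀ y ∈ I k, f x = f y

/-- A value density: nonnegative, piecewise constant, with positive integral over the cake. -/
structure Density where
  f : unitInterval → ℝ
  nonneg : ∀ x, 0 ≤ f x
  pc : PiecewiseConst f
  pos : 0 < ∫ x, f x

/-- The value of the piece `S` for an agent with density `d`. -/
noncomputable def value (d : Density) (S : Set unitInterval) : ℝ := ∫ x in S, d.f x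

/-- A (deterministic, direct-revelation) mechanism for `n` agents: every profile of reported
densities is mapped to an allocation by pairwise disjoint finite unions of intervals whose union
is the whole cake. -/
structure Mechanism (n : ℕ) where
  alloc : (Fin n → Density) → Fin n → Set unitInterval
  intervals : ∀ p i, FinUnionIntervals (alloc p i)
  disjoint : ∀ p i j, i ≠ j → Disjoint (alloc p i) (alloc p j)
  whole : ∀ p, (⋃ i, alloc p i) = Set.univ

/-- Truth-telling is a dominant strategy. -/
def Mechanism.Truthful {n : ℕ} (M : Mechanism n) : Prop :=
  ∀ (i : Fin n) (p : Fin n → Density) (g : Density),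
    value (p i) (M.alloc (Function.update p i g) i) ≤ value (p i) (M.alloc p i)

/-- On every profile every agent receives a piece of positive value. -/
def Mechanism.PositiveForAll {n : ℕ} (M : Mechanism n) : Prop :=
  ∀ (p : Fin n → Density) (i : Fin n), 0 < value (p i) (M.alloc p i)

end Pool.Agent.V11109.Cake
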