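import Mathlib
import Pool.Agent.V11109.Cake.Defs

open MeasureTheory Set

namespace Pool.Agent.V11109.Cake

lemma pc_of_fintype {ι : Type} [Fintype ι] {f : unitInterval → ℝ} (I : ι → Set unitInterval)
    (h1 : ∀ k, (I k).OrdConnected) (h2 : ∀ j k, j ≠ k → Disjoint (I j) (I k))
    (h3 : (⋃ k, I k) = Set.univ) (h4 : ∀ k, ∀ x ∈ I k, ∀ y ∈ I k, f x = f y) :
    PiecewiseConst f := by
  refine ⟨Fintype.card ι, fun k => I ((Fintype.equivFin ι).symm k), fun k => h1 _, ?_, ?_, ?_⟩
  · intro j k hjk
    apply h2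
    intro h
    exact hjk ((Fintype.equivFin ι).symm.injective h)
  · rw [← h3]
    exact (Fintype.equivFin ι).symm.surjective.iUnion_comp I
  · intro k x hx y hy
    exact h4 _ x hx y hy

lemma pc_const (c : ℝ) : PiecewiseConst (fun _ => c) := by
  refine ⟨1, fun _ => Set.univ, fun _ => ordConnected_univ, ?_, ?_, ?_⟩
  · intro j k hjk
    exact absurd (Subsingleton.elim j k) hjk
  · exact Set.iUnion_const _
  · intros; rfl

lemma pc_comb (F : ℝ → ℝ → ℝ) {f g : unitInterval → ℝ} (hf : PiecewiseConst f)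
    (hg : PiecewiseConst g) : PiecewiseConst (fun x => F (f x) (g x)) := by
  obtain ⟨m, I, i1, i2, i3, i4⟩ := hf
  obtain ⟨n, J, j1, j2, j3, j4⟩ := hg
  refine pc_of_fintype (ι := Fin m × Fin n) (fun k => I k.1 ∩ J k.2) (fun k => (i1 _).inter (j1 _))
    ?_ ?_ ?_
  · rintro ⟨a, b⟩ ⟨c, d⟩ hne
    by_cases hac : a = c
    · subst hac
      have hbd : b ≠ d := fun h => hne (by rw [h])
      exact (j2 b d hbd).mono inter_subset_right inter_subset_right
    · exact (i2 a c hac).mono inter_subset_left inter_subset_left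
  · ext x
    simp only [mem_iUnion, mem_univ, iff_true]
    have hx1 : x ∈ ⋃ k, I k := by rw [i3]; trivial
    have hx2 : x ∈ ⋃ k, J k := by rw [j3]; trivial
    obtain ⟨a, ha⟩ := mem_iUnion.1 hx1
    obtain ⟨b, hb⟩ := mem_iUnion.1 hx2
    exact ⟨(a, b), ha, hb⟩
  · rintro ⟨a, b⟩ x ⟨hx1, hx2⟩ y ⟨hy1, hy2⟩
    simp only [i4 a x hx1 y hy1, j4 b x hx2 y hy2]

/-- a set whose indicator function is piecewise constant -/
def PCSet (S : Set unitInterval) : Prop := PiecewiseConst (S.indicator (fun _ => (1:ℝ)))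

open Classical in
lemma pcset_of_ordConnected {J : Set unitInterval} (hJ : J.OrdConnected) : PCSet J := by
  set L : Set unitInterval := {x | x ∉ J ∧ ∀ y ∈ J, x < y} with hL
  set R : Set unitInterval := {x | x ∉ J ∧ ∃ y ∈ J, y < x} with hR
  refine pc_of_fintype (ι := Fin 3) (fun k => if k = 0 then L else if k = 1 then J else R)
    ?_ ?_ ?_ ?_
  · intro k
    have hLc : L.OrdConnected := by
      constructor
      intro x hx y hy z hz
      refine ⟨?_, ?_⟩
      · intro hzJ
        exact absurd (hy.2 z hzJ) (not_lt.2 hz.2)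
      · intro w hw
        exact lt_of_le_of_lt hz.2 (hy.2 w hw)
    have hRc : R.OrdConnected := by
      constructor
      intro x hx y hy z hz
      obtain ⟨hxJ, w, hwJ, hwx⟩ := hx
      refine ⟨?_, w, hwJ, lt_of_lt_of_le hwx hz.1⟩
      intro hzJ
      exact hxJ (hJ.out hwJ hzJ ⟨hwx.le, hz.1⟩)
    fin_cases k <;> simp [hLc, hRc, hJ]
  · intro j k hjk
    have dLJ : Disjoint L J := by
      rw [Set.disjoint_left]; intro x hx hxJ; exact hx.1 hxJ
    have dRJ : Disjoint R J := by
      rw [Set.disjoint_left]; intro x hx hxJ; exact hx.1 hxJ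
    have dLR : Disjoint L R := by
      rw [Set.disjoint_left]; intro x hx hxR
      obtain ⟨_, y, hy, hyx⟩ := hxR
      exact absurd (hx.2 y hy) (not_lt.2 hyx.le)
    fin_cases j <;> fin_cases k <;> simp_all [Disjoint.symm]
  · ext x
    simp only [mem_iUnion, mem_univ, iff_true]
    by_cases hxJ : x ∈ J
    · exact ⟨1, by simpa using hxJ⟩
    · by_cases hx : ∀ y ∈ J, x < y
      · refine ⟨0, ?_⟩
        rw [if_pos rfl]
        exact ⟨hxJ, hx⟩
      · push Not at hx
        obtain ⟨y, hy, hyx⟩ := hx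
        refine ⟨2, ?_⟩
        have : y ≠ x := fun h => hxJ (h ▸ hy)
        rw [if_neg (by decide), if_neg (by decide)]
        exact ⟨hxJ, y, hy, lt_of_le_of_ne hyx this⟩
  · intro k x hx y hy
    fin_cases k
    · have hx' : x ∉ J := by simp at hx; exact hx.1
      have hy' : y ∉ J := by simp at hy; exact hy.1
      simp [hx', hy']
    · have hx' : x ∈ J := by simpa using hx
      have hy' : y ∈ J := by simpa using hy
      simp [hx', hy']
    · have hx' : x ∉ J := by simp at hx; exact hx.1
      have hy' : y ∉ J := by simp at hy; exact hy.1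
      simp [hx', hy']

lemma PCSet.union {A B : Set unitInterval} (hA : PCSet A) (hB : PCSet B) : PCSet (A ∪ B) := by
  have := pc_comb (fun a b => max a b) hA hB
  unfold PCSet
  convert this using 2 with x
  by_cases h1 : x ∈ A <;> by_cases h2 : x ∈ B <;> simp [h1, h2]

lemma PCSet.inter {A B : Set unitInterval} (hA : PCSet A) (hB : PCSet B) : PCSet (A ∩ B) := by
  have := pc_comb (fun a b => min a b) hA hB
  unfold PCSet
  convert this using 2 with x
  by_cases h1 : x ∈ A <;> by_cases h2 : x ∈ B <;> simp [h1, h2]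

lemma pcset_empty : PCSet (∅ : Set unitInterval) := by
  unfold PCSet
  simpa using pc_const 0

lemma pcset_of_finUnion {S : Set unitInterval} (h : FinUnionIntervals S) : PCSet S := by
  obtain ⟨m, I, hI, rfl⟩ := h
  induction m with
  | zero => simpa using pcset_empty
  | succ m ih =>
    have : (⋃ k, I k) = I 0 ∪ ⋃ k : Fin m, I k.succ := by
      ext x
      simp [Fin.exists_fin_succ]
    rw [this]
    exact (pcset_of_ordConnected (hI 0)).union (ih (fun k => I k.succ) (fun k => hI _))

lemma pc_measurable {f : unitInterval → ℝ} (hf : PiecewiseConst f) : Measurable f := by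
  obtain ⟨m, I, i1, i2, i3, i4⟩ := hf
  intro U _
  have : f ⁻¹' U = ⋃ k ∈ {k : Fin m | (I k ∩ f ⁻¹' U).Nonempty}, I k := by
    ext x
    simp only [mem_iUnion, mem_ofPred_eq, exists_prop]
    constructor
    · intro hx
      have hx1 : x ∈ ⋃ k, I k := by rw [i3]; trivial
      obtain ⟨a, ha⟩ := mem_iUnion.1 hx1
      exact ⟨a, ⟨x, ha, hx⟩, ha⟩
    · rintro ⟨k, ⟨y, hy1, hy2⟩, hx⟩
      show f x ∈ U
      rw [i4 k x hx y hy1]
      exact hy2
  rw [this]
  exact MeasurableSet.biUnion (Set.to_countable _) (fun k _ => (i1 k).measurableSet)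

lemma PCSet.measurableSet {S : Set unitInterval} (h : PCSet S) : MeasurableSet S := by
  have := pc_measurable h (measurableSet_singleton (1:ℝ))
  convert this using 1
  ext x
  by_cases hx : x ∈ S <;> simp [hx]

end Pool.Agent.V11109.Cake
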