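import Mathlib
import Pool.Agent.V11109.Cake.Defs
import Pool.Agent.V11109.Cake.PC
import Pool.Agent.V11109.Cake.Core

open MeasureTheory Set

namespace Pool.Agent.V11109.Cake

/-- real-valued Lebesgue measure on the cake -/
noncomputable abbrev vr (A : Set unitInterval) : ℝ := (volume : Measure unitInterval).real A

lemma vr_nonneg (A : Set unitInterval) : 0 ≤ vr A := measureReal_nonneg

lemma vr_mono {A B : Set unitInterval} (h : A ⊆ B) : vr A ≤ vr B :=
  measureReal_mono h (measure_ne_top _ _)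

lemma vr_le_one (A : Set unitInterval) : vr A ≤ 1 := by
  have := vr_mono (subset_univ A)
  have h : vr (univ : Set unitInterval) = 1 := by simp [vr]
  linarith

lemma pc_bounded {f : unitInterval → ℝ} (hf : PiecewiseConst f) : ∃ C, ∀ x, ‖f x‖ ≤ C := by
  obtain ⟨m, I, i1, i2, i3, i4⟩ := hf
  have : ∀ k, ∃ c, ∀ x ∈ I k, f x = c := by
    intro k
    by_cases h : (I k).Nonempty
    · obtain ⟨y, hy⟩ := h
      exact ⟨f y, fun x hx => i4 k x hx y hy⟩
    · exact ⟨0, fun x hx => absurd ⟨x, hx⟩ h⟩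
  choose c hc using this
  refine ⟨∑ k, ‖c k‖, fun x => ?_⟩
  have hx1 : x ∈ ⋃ k, I k := by rw [i3]; trivial
  obtain ⟨a, ha⟩ := mem_iUnion.1 hx1
  rw [hc a x ha]
  exact Finset.single_le_sum (f := fun k => ‖c k‖) (fun k _ => norm_nonneg _) (Finset.mem_univ a)

lemma pc_integrable {f : unitInterval → ℝ} (hf : PiecewiseConst f) : Integrable f := by
  obtain ⟨C, hC⟩ := pc_bounded hf
  exact Integrable.of_bound (pc_measurable hf).aestronglyMeasurable C (Filter.Eventually.of_forall hC)

lemma value_compl (d : Density) {S : Set unitInterval} (hS : MeasurableSet S) :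
    value d Sᶜ = (∫ x, d.f x) - value d S := by
  have := integral_add_compl hS (pc_integrable d.pc)
  unfold value
  linarith

open Classical in
/-- three-valued function -/
noncomputable def tri (B Q : Set unitInterval) (α β γ : ℝ) : unitInterval → ℝ :=
  fun x => if x ∈ B then β else if x ∈ Q then γ else α

lemma tri_pc {B Q : Set unitInterval} (hB : PCSet B) (hQ : PCSet Q) (α β γ : ℝ) :
    PiecewiseConst (tri B Q α β γ) := by
  classical
  have := pc_comb (fun u v => if u = 1 then β else if v = 1 then γ else α) hB hQ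
  convert this using 2 with x
  unfold tri
  by_cases h1 : x ∈ B <;> by_cases h2 : x ∈ Q <;> simp [h1, h2]

lemma tri_integral {B Q A : Set unitInterval} (hB : MeasurableSet B) (hQ : MeasurableSet Q)
    (hBQ : B ⊆ Q) (α β γ : ℝ) :
    ∫ x in A, tri B Q α β γ x = α * vr (A ∩ Qᶜ) + β * vr (A ∩ B) + γ * vr (A ∩ (Q \ B)) := by
  have e : tri B Q α β γ = (Qᶜ.indicator (fun _ => α) + B.indicator (fun _ => β)) +
      (Q \ B).indicator (fun _ => γ) := by
    funext x
    unfold tri
    by_cases h1 : x ∈ B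
    · have h2 : x ∈ Q := hBQ h1
      simp [h1, h2]
    · by_cases h2 : x ∈ Q <;> simp [h1, h2]
  have i1 : Integrable (Qᶜ.indicator (fun _ => α)) ((volume : Measure unitInterval).restrict A) :=
    (integrable_const α).indicator hQ.compl
  have i2 : Integrable (B.indicator (fun _ => β)) ((volume : Measure unitInterval).restrict A) :=
    (integrable_const β).indicator hB
  have i3 : Integrable ((Q \ B).indicator (fun _ => γ))
      ((volume : Measure unitInterval).restrict A) :=
    (integrable_const γ).indicator (hQ.diff hB)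
  rw [e, integral_add' (i1.add i2) i3, integral_add' i1 i2, setIntegral_indicator hQ.compl,
    setIntegral_indicator hB, setIntegral_indicator (hQ.diff hB), setIntegral_const,
    setIntegral_const, setIntegral_const]
  simp only [smul_eq_mul]
  ring

/-- the constant density -/
noncomputable def one : Density where
  f := fun _ => 1
  nonneg := fun _ => zero_le_one
  pc := pc_const 1
  pos := by simp

lemma value_one (A : Set unitInterval) : value one A = vr A := by
  show ∫ x in A, (1:ℝ) = vr A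
  rw [setIntegral_const]
  simp [vr]

open Classical in
/-- turn a function into a density when possible -/
noncomputable def D (f : unitInterval → ℝ) : Density :=
  if h : (∀ x, 0 ≤ f x) ∧ PiecewiseConst f ∧ 0 < ∫ x, f x then ⟨f, h.1, h.2.1, h.2.2⟩ else one

lemma D_f {f : unitInterval → ℝ} (h1 : ∀ x, 0 ≤ f x) (h2 : PiecewiseConst f)
    (h3 : 0 < ∫ x, f x) : (D f).f = f := by
  unfold D
  rw [dif_pos ⟨h1, h2, h3⟩]

lemma D_tri {B Q : Set unitInterval} (hB : PCSet B) (hQ : PCSet Q) (hBQ : B ⊆ Q)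
    (hpos : 0 < vr B) {α β γ : ℝ} (hα : 0 ≤ α) (hβ : 0 < β) (hγ : 0 ≤ γ) :
    (D (tri B Q α β γ)).f = tri B Q α β γ := by
  apply D_f
  · intro x
    unfold tri
    split_ifs <;> linarith
  · exact tri_pc hB hQ α β γ
  · have := tri_integral (A := univ) hB.measurableSet hQ.measurableSet hBQ α β γ
    rw [setIntegral_univ] at this
    rw [this]
    simp only [univ_inter]
    have h1 := vr_nonneg Qᶜ
    have h2 := vr_nonneg (Q \ B)
    have : 0 < β * vr B := mul_pos hβ hpos
    have := mul_nonneg hα h1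
    have := mul_nonneg hγ h2
    linarith

lemma value_tri {B Q : Set unitInterval} (hB : PCSet B) (hQ : PCSet Q) (hBQ : B ⊆ Q)
    (hpos : 0 < vr B) {α β γ : ℝ} (hα : 0 ≤ α) (hβ : 0 < β) (hγ : 0 ≤ γ) (A : Set unitInterval) :
    value (D (tri B Q α β γ)) A =
      α * vr (A ∩ Qᶜ) + β * vr (A ∩ B) + γ * vr (A ∩ (Q \ B)) := by
  unfold value
  rw [D_tri hB hQ hBQ hpos hα hβ hγ]
  exact tri_integral hB.measurableSet hQ.measurableSet hBQ α β γ

lemma tri_same {B Q : Set unitInterval} (hBQ : B ⊆ Q) (α β : ℝ) :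
    tri B Q α β β = tri Q Q α β β := by
  funext x
  unfold tri
  by_cases h1 : x ∈ B
  · simp [h1, hBQ h1]
  · by_cases h2 : x ∈ Q <;> simp [h1, h2]

theorem no_two (M : Mechanism 2) (hT : M.Truthful)
    (hP : ∀ d : Density, (∀ x, d.f x = 0 ∨ d.f x = 1) → ∀ i, 0 < value d (M.alloc ![d, d] i)) :
    False := by
  set X : Density → Density → Set unitInterval := fun f g => M.alloc ![f, g] 0 with hX
  set Y : Density → Density → Set unitInterval := fun f g => M.alloc ![f, g] 1 with hY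
  have hXpc : ∀ f g, PCSet (X f g) := fun f g => pcset_of_finUnion (M.intervals _ _)
  have hYpc : ∀ f g, PCSet (Y f g) := fun f g => pcset_of_finUnion (M.intervals _ _)
  have hXm : ∀ f g, MeasurableSet (X f g) := fun f g => (hXpc f g).measurableSet
  have hYX : ∀ f g, Y f g = (X f g)ᶜ := by
    intro f g
    have h1 := M.disjoint ![f, g] 0 1 (by decide)
    have h2 := M.whole ![f, g]
    ext x
    constructor
    · intro hx hx'
      exact Set.disjoint_left.1 h1 hx' hx
    · intro hx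
      have : x ∈ ⋃ i, M.alloc ![f, g] i := by rw [h2]; trivial
      obtain ⟨i, hi⟩ := mem_iUnion.1 this
      fin_cases i
      · exact absurd hi hx
      · exact hi
  have hT1 : ∀ f f' g, value f (X f' g) ≤ value f (X f g) := by
    intro f f' g
    have := hT 0 ![f, g] f'
    have e : Function.update ![f, g] 0 f' = ![f', g] := by
      funext i; fin_cases i <;> simp
    rw [e] at this
    simpa using this
  have hT2 : ∀ f g g', value g (X f g) ≤ value g (X f g') := by
    intro f g g'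
    have := hT 1 ![f, g] g'
    have e : Function.update ![f, g] 1 g' = ![f, g'] := by
      funext i; fin_cases i <;> simp
    rw [e] at this
    have h1 : value g (Y f g') ≤ value g (Y f g) := by simpa using this
    rw [hYX, hYX, value_compl _ (hXm _ _), value_compl _ (hXm _ _)] at h1
    linarith
  have hP1 : ∀ f : Density, (∀ x, f.f x = 0 ∨ f.f x = 1) → 0 < value f (X f f) :=
    fun f hf => hP f hf 0
  have hP2 : ∀ f : Density, (∀ x, f.f x = 0 ∨ f.f x = 1) → 0 < value f (Y f f) :=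
    fun f hf => hP f hf 1
  -- the set `Q`
  set Q : Set unitInterval := Y one one with hQ
  have hQpc : PCSet Q := hYpc _ _
  have hQpos : 0 < vr Q := by
    have := hP2 one (fun x => Or.inr rfl)
    rwa [value_one] at this
  set q1 : Density := D (tri Q Q 0 1 1) with hq1
  have vq1 : ∀ A, value q1 A = vr (A ∩ Q) := by
    intro A
    rw [hq1, value_tri hQpc hQpc subset_rfl hQpos le_rfl one_pos zero_le_one]
    simp [vr]
  set E : ℝ → Density := fun a => D (tri Q Q 1 (1 + a) (1 + a)) with hE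
  have vE : ∀ a, 0 ≤ a → ∀ A, value (E a) A = vr (A ∩ Qᶜ) + (1 + a) * vr (A ∩ Q) := by
    intro a ha A
    rw [hE, value_tri hQpc hQpc subset_rfl hQpos zero_le_one (by linarith) (by linarith)]
    simp [vr]
  have hE0 : E 0 = one := by
    have e1 : tri Q Q 1 (1 + 0) (1 + 0) = fun _ => (1:ℝ) := by
      funext x; unfold tri; simp
    show D (tri Q Q 1 (1 + 0) (1 + 0)) = one
    rw [e1]
    unfold D
    rw [dif_pos ⟨fun _ => zero_le_one, pc_const 1, by simp⟩]
    rfl
  have hP0 : vr (X (E 0) q1 ∩ Q) = 0 := by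
    rw [hE0]
    have h1 := hT2 one q1 one
    rw [vq1, vq1] at h1
    have h2 : X one one ∩ Q = ∅ := by
      rw [hQ, hYX]; exact inter_compl_self _
    rw [h2] at h1
    have h3 := vr_nonneg (X one q1 ∩ Q)
    have h4 : vr (∅ : Set unitInterval) = 0 := by simp [vr]
    linarith
  set ν := vr (X q1 q1 ∩ Q) with hν
  have hνpos : 0 < ν := by
    have := hP1 q1 (fun x => by
      rw [hq1, D_tri hQpc hQpc subset_rfl hQpos le_rfl one_pos zero_le_one]
      unfold tri
      split_ifs <;> simp)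
    rwa [vq1] at this
  classical
  have hex : ∃ k : ℕ, vr (X (E (k / 8)) q1 ∩ Q) ≠ 0 := by
    obtain ⟨k, hk⟩ := exists_nat_gt (8 / ν)
    refine ⟨k, fun h0 => ?_⟩
    have hk0 : (0:ℝ) ≤ k / 8 := by positivity
    have h1 := hT1 (E (k / 8)) q1 q1
    rw [vE _ hk0, vE _ hk0, h0, ← hν] at h1
    have h2 := vr_le_one (X (E (k / 8)) q1 ∩ Qᶜ)
    have h3 := vr_nonneg (X q1 q1 ∩ Qᶜ)
    rw [div_lt_iff₀ hνpos] at hk
    nlinarith
  set k := Nat.find hex with hk
  have hkspec := Nat.find_spec hex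
  rw [← hk] at hkspec
  have hkpos : 0 < k := by
    rcases Nat.eq_zero_or_pos k with h | h
    · exfalso
      apply hkspec
      rw [h]
      simpa using hP0
    · exact h
  have hkmin : vr (X (E (((k - 1 : ℕ) : ℝ) / 8)) q1 ∩ Q) = 0 := by
    have := Nat.find_min hex (m := k - 1) (by omega)
    simpa using this
  set a0 : ℝ := ((k - 1 : ℕ) : ℝ) / 8 with ha0
  have ha0n : 0 ≤ a0 := by positivity
  have hka : (k : ℝ) / 8 = a0 + 1 / 8 := by
    rw [ha0, Nat.cast_sub (by omega)]
    push_cast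
    ring
  rw [hka] at hkspec
  set B : Set unitInterval := X (E (a0 + 1 / 8)) q1 ∩ Q with hB
  have hBpc : PCSet B := (hXpc _ _).inter hQpc
  have hBQ : B ⊆ Q := inter_subset_right
  have hBpos : 0 < vr B := lt_of_le_of_ne (vr_nonneg _) (Ne.symm hkspec)
  -- types
  set T : ℝ × ℝ × ℝ → Density := fun p => D (tri B Q p.1 p.2.1 p.2.2) with hTdef
  have vT : ∀ p, Dom p → ∀ A, value (T p) A = dot p (vr (A ∩ Qᶜ), vr (A ∩ B), vr (A ∩ (Q \ B))) := by
    intro p hp A
    rw [hTdef]
    simp only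
    rw [value_tri hBpc hQpc hBQ hBpos hp.1 hp.2.1 hp.2.2]
    rfl
  set x : ℝ × ℝ × ℝ → ℝ × ℝ × ℝ → ℝ × ℝ × ℝ := fun p q =>
    (vr (X (T p) (T q) ∩ Qᶜ), vr (X (T p) (T q) ∩ B), vr (X (T p) (T q) ∩ (Q \ B))) with hx
  have H : Hyp x (vr Qᶜ) (vr B) (vr (Q \ B)) := by
    refine ⟨?_, ?_, ?_, ?_, ?_, ?_, ?_, ?_⟩
    · intro p p' q hp hp' hq
      have := hT1 (T p) (T p') (T q)
      rwa [vT p hp, vT p hp] at this
    · intro p q q' hp hq hq'
      have := hT2 (T p) (T q) (T q')
      rwa [vT q hq, vT q hq] at this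
    all_goals intro p q hp hq
    · exact vr_nonneg _
    · exact vr_mono inter_subset_right
    · exact vr_nonneg _
    · exact vr_mono inter_subset_right
    · exact vr_nonneg _
    · exact vr_mono inter_subset_right
  have Tq1 : T (0, 1, 1) = q1 := by
    show D (tri B Q 0 1 1) = D (tri Q Q 0 1 1)
    rw [tri_same hBQ]
  have TE : ∀ a, T (1, 1 + a, 1 + a) = E a := by
    intro a
    show D (tri B Q 1 (1 + a) (1 + a)) = D (tri Q Q 1 (1 + a) (1 + a))
    rw [tri_same hBQ]
  have z1 : (x (1, 1 + a0, 1 + a0) (0, 1, 1)).2.1 = 0 := by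
    show vr (X (T (1, 1 + a0, 1 + a0)) (T (0, 1, 1)) ∩ B) = 0
    rw [Tq1, TE]
    apply le_antisymm _ (vr_nonneg _)
    rw [← hkmin]
    exact vr_mono (inter_subset_inter_right _ hBQ)
  have z2 : (x (1, 1 + a0, 1 + a0) (0, 1, 1)).2.2 = 0 := by
    show vr (X (T (1, 1 + a0, 1 + a0)) (T (0, 1, 1)) ∩ (Q \ B)) = 0
    rw [Tq1, TE]
    apply le_antisymm _ (vr_nonneg _)
    rw [← hkmin]
    exact vr_mono (inter_subset_inter_right _ sdiff_subset)
  have e8 : (1, 1 + a0 + 1 / 8, 1 + a0 + 1 / 8) = ((1, 1 + (a0 + 1 / 8), 1 + (a0 + 1 / 8)) : ℝ × ℝ × ℝ) := by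
    simp only [add_assoc]
  have z3 : (x (1, 1 + a0 + 1 / 8, 1 + a0 + 1 / 8) (0, 1, 1)).2.1 = vr B := by
    rw [e8]
    show vr (X (T (1, 1 + (a0 + 1 / 8), 1 + (a0 + 1 / 8))) (T (0, 1, 1)) ∩ B) = vr B
    rw [Tq1, TE]
    congr 1
    rw [hB]
    ext y
    simp
  have z4 : (x (1, 1 + a0 + 1 / 8, 1 + a0 + 1 / 8) (0, 1, 1)).2.2 = 0 := by
    rw [e8]
    show vr (X (T (1, 1 + (a0 + 1 / 8), 1 + (a0 + 1 / 8))) (T (0, 1, 1)) ∩ (Q \ B)) = 0
    rw [Tq1, TE]
    have : X (E (a0 + 1 / 8)) q1 ∩ (Q \ B) = ∅ := by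
      rw [hB]
      ext y
      simp
    rw [this]
    simp [vr]
  have z5 : (x (0, 1, 0) (0, 1, 0)).2.1 < vr B := by
    show vr (X (T (0, 1, 0)) (T (0, 1, 0)) ∩ B) < vr B
    have dB : Dom ((0, 1, 0) : ℝ × ℝ × ℝ) := ⟨le_rfl, one_pos, le_rfl⟩
    have h1 := hP2 (T (0, 1, 0)) (fun x => by
      show (D (tri B Q 0 1 0)).f x = 0 ∨ (D (tri B Q 0 1 0)).f x = 1
      rw [D_tri hBpc hQpc hBQ hBpos le_rfl one_pos le_rfl]
      unfold tri
      split_ifs <;> simp)
    rw [vT _ dB, hYX] at h1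
    simp only [dot, zero_mul, one_mul, zero_add, add_zero] at h1
    have h2 : vr (X (T (0, 1, 0)) (T (0, 1, 0)) ∩ B) +
        vr ((X (T (0, 1, 0)) (T (0, 1, 0)))ᶜ ∩ B) = vr B := by
      have := measureReal_inter_add_sdiff (μ := (volume : Measure unitInterval)) (s := B)
        (hXm (T (0, 1, 0)) (T (0, 1, 0)))
      have e1 : (X (T (0, 1, 0)) (T (0, 1, 0)))ᶜ ∩ B = B \ X (T (0, 1, 0)) (T (0, 1, 0)) := by
        rw [sdiff_eq, inter_comm]
      rw [inter_comm, e1]
      exact this
    linarith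
  exact core H ha0n (by norm_num : (0:ℝ) < 1 / 8) le_rfl z1 z2 z3 z4 z5

end Pool.Agent.V11109.Cake
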